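import Mathlib

set_option autoImplicit false

/-!
# Primes with a prescribed odd order
-/

namespace Q239.MP

open Polynomial

/-- `n < 3 ^ φ(n)` for odd `n`. -/
lemma lt_three_pow_totient : ∀ n : ℕ, Odd n → n < 3 ^ n.totient := by
  intro n
  induction n using Nat.recOnPosPrimePosCoprime with
  | zero => intro h; simp at h
  | one => intro _; norm_num
  | prime_pow p e hp he =>
    intro hodd
    have hp3 : 3 ≤ p := by
      have h2 := hp.two_le
      rcases Nat.lt_or_ge p 3 with h | h
      · exfalso
        have : p = 2 := by omega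
        subst this
        have := (Nat.odd_pow_iff (by omega)).1 hodd
        revert this; decide
      · exact h
    rw [Nat.totient_prime_pow hp he]
    have h1 : p ^ e = p ^ (e - 1) * p := by
      rw [← pow_succ]; congr 1; omega
    have h2 : 2 * p ≤ 3 * (p - 1) := by omega
    set m := p ^ (e - 1) * (p - 1) with hm
    have hpos : 0 < p ^ (e - 1) := Nat.pow_pos hp.pos
    have hm1 : 1 ≤ m := by
      have : 1 ≤ p - 1 := by omega
      nlinarith
    have h3 : 2 * p ^ e ≤ 3 * m := by
      rw [h1, hm]
      calc 2 * (p ^ (e - 1) * p) = p ^ (e - 1) * (2 * p) := by ring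
        _ ≤ p ^ (e - 1) * (3 * (p - 1)) := Nat.mul_le_mul_left _ h2
        _ = 3 * (p ^ (e - 1) * (p - 1)) := by ring
    have h4 : 3 * m < 2 * 3 ^ m := by
      clear_value m
      clear hm h3
      induction m, hm1 using Nat.le_induction with
      | base => norm_num
      | succ k hk ih =>
        rw [pow_succ]
        have : 1 ≤ 3 ^ k := Nat.one_le_pow _ _ (by norm_num)
        omega
    omega
  | coprime a b ha hb hab iha ihb =>
    intro hodd
    have hoa : Odd a := Nat.Odd.of_mul_left hodd
    have hob : Odd b := Nat.Odd.of_mul_right hodd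
    have key : ∀ c : ℕ, Odd c → 1 < c → 2 ≤ c.totient := by
      intro c hc hc1
      have h3 : 2 < c := by
        rcases hc with ⟨k, rfl⟩
        omega
      have h4 := Nat.totient_even h3
      have h5 : 0 < c.totient := Nat.totient_pos.2 (by omega)
      rcases h4 with ⟨r, hr⟩
      omega
    rw [Nat.totient_mul hab]
    have h1 := key a hoa ha
    have h2 := key b hob hb
    have h3 : a.totient + b.totient ≤ a.totient * b.totient := by nlinarith
    calc a * b < 3 ^ a.totient * 3 ^ b.totient :=
          Nat.mul_lt_mul'' (iha hoa) (ihb hob)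
      _ = 3 ^ (a.totient + b.totient) := by rw [pow_add]
      _ ≤ 3 ^ (a.totient * b.totient) := Nat.pow_le_pow_right (by norm_num) h3

/-- For `b ≥ 4` and odd `d ≥ 3` there is a prime `q` with `b` of order `d` modulo `q`. -/
lemma exists_prime_order (b d : ℕ) (hb : 4 ≤ b) (hd : Odd d) (hd3 : 3 ≤ d) :
    ∃ q : ℕ, q.Prime ∧ orderOf (b : ZMod q) = d := by
  by_contra hcon
  push Not at hcon
  set F : ℤ := (cyclotomic d ℤ).eval (b : ℤ) with hF
  have hFlt : (3 : ℝ) ^ d.totient < (F : ℝ) := by
    have h1 := sub_one_pow_totient_lt_cyclotomic_eval (n := d) (q := (b : ℝ)) (by omega)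
      (by exact_mod_cast (by omega : 1 < b))
    have h2 : (F : ℝ) = (cyclotomic d ℝ).eval (b : ℝ) := by
      rw [hF, ← map_cyclotomic_int d ℝ, eval_natCast_map]
      simp
    rw [h2]
    refine lt_of_le_of_lt ?_ h1
    apply pow_le_pow_left₀ (by norm_num)
    have : (4 : ℝ) ≤ b := by exact_mod_cast hb
    linarith
  have hFpos : 0 < F := by
    have : (0 : ℝ) < (F : ℝ) := lt_trans (by positivity) hFlt
    exact_mod_cast this
  obtain ⟨f, hf⟩ := Int.eq_ofNat_of_zero_le hFpos.le
  have hf0 : f ≠ 0 := by
    rintro rfl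
    rw [hf] at hFpos
    simp at hFpos
  have hflt : 3 ^ d.totient < f := by
    rw [hf] at hFlt
    exact_mod_cast hFlt
  have hd0 : d ≠ 0 := by omega
  -- all primes dividing `f` divide `d`
  have hdvd : ∀ q : ℕ, q.Prime → q ∣ f → q ∣ d := by
    intro q hq hqf
    by_contra hqd
    have := Fact.mk hq
    have : NeZero (d : ZMod q) := ⟨by
      rw [Ne, ZMod.natCast_eq_zero_iff]
      exact hqd⟩
    have hroot : IsRoot (cyclotomic d (ZMod q)) (b : ZMod q) := by
      rw [IsRoot.def, ← map_cyclotomic_int d (ZMod q)]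
      rw [eval_natCast_map]
      rw [← hF, hf]
      simp only [Int.coe_castRingHom, eq_intCast]
      rw [Int.cast_natCast, ZMod.natCast_eq_zero_iff]
      exact hqf
    have h2 := (isRoot_cyclotomic_iff.mp hroot).eq_orderOf
    exact hcon q hq h2.symm
  -- exponents at most one
  have hexp : ∀ q : ℕ, q.Prime → ¬ q ^ 2 ∣ f := by
    intro q hq hq2
    have hqf : q ∣ f := (dvd_pow_self q (by norm_num)).trans hq2
    obtain ⟨d1, hd1⟩ := hdvd q hq hqf
    have hqodd : Odd q := by
      rw [hd1] at hd
      exact Nat.Odd.of_mul_left hd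
    have hd10 : d1 ≠ 0 := by
      rintro rfl
      simp at hd1
      exact hd0 hd1
    have hq2' := hq.two_le
    have hmem : d1 ∈ d.properDivisors := by
      rw [Nat.mem_properDivisors]
      refine ⟨⟨q, by rw [hd1]; ring⟩, ?_⟩
      rw [hd1]
      nlinarith [Nat.pos_of_ne_zero hd10]
    have h1 : ((b : ℤ) ^ d1 - 1) * F ∣ (b : ℤ) ^ d - 1 := by
      have := X_pow_sub_one_mul_cyclotomic_dvd_X_pow_sub_one_of_dvd ℤ hmem
      have := map_dvd (evalRingHom (b : ℤ)) this
      simpa [← hF] using this
    set y : ℤ := (b : ℤ) ^ d1 with hy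
    have hyq : (b : ℤ) ^ d = y ^ q := by
      rw [hy, ← pow_mul, hd1]; congr 1; ring
    have := Fact.mk hq
    have hqF : (q : ℤ) ∣ y ^ q - 1 := by
      have h2 : (q : ℤ) ∣ F := by rw [hf]; exact_mod_cast hqf
      rw [← hyq]
      exact (h2.trans (dvd_mul_left F _)).trans h1
    have hy1 : (q : ℤ) ∣ y - 1 := by
      have h3 : ((y ^ q - 1 : ℤ) : ZMod q) = 0 := (ZMod.intCast_zmod_eq_zero_iff_dvd _ _).2 hqF
      have h4 : ((y - 1 : ℤ) : ZMod q) = 0 := by
        push_cast at h3 ⊢
        rw [ZMod.pow_card] at h3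
        exact h3
      exact (ZMod.intCast_zmod_eq_zero_iff_dvd _ _).1 h4
    have hyn : ¬ (q : ℤ) ∣ y := by
      intro h5
      have : (q : ℤ) ∣ 1 := by
        have := dvd_sub h5 hy1
        simpa using this
      have := Int.natCast_dvd_natCast.1 (by simpa using this : (q : ℤ) ∣ ((1 : ℕ) : ℤ))
      have := Nat.le_of_dvd one_pos this
      omega
    have hLTE := Int.emultiplicity_pow_sub_pow hq hqodd (x := y) (y := 1) hy1 hyn q
    rw [one_pow] at hLTE
    have hself : emultiplicity q q = 1 := by
      apply (Nat.finiteMultiplicity_iff.2 ⟨hq.ne_one, hq.pos⟩).emultiplicity_self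
    rw [hself] at hLTE
    have hy1ne : y - 1 ≠ 0 := by
      have : (1 : ℤ) < y := by
        rw [hy]
        apply one_lt_pow₀ (by exact_mod_cast (by omega : 1 < b)) hd10
      omega
    have hfin : FiniteMultiplicity (q : ℤ) (y - 1) := by
      rw [Int.finiteMultiplicity_iff]
      refine ⟨?_, hy1ne⟩
      simpa using hq.ne_one
    -- `q ^ (v + 2)` divides
    have h6 : (q : ℤ) ^ (multiplicity (q : ℤ) (y - 1) + 2) ∣ y ^ q - 1 := by
      rw [← hyq]
      refine dvd_trans ?_ h1
      rw [pow_add]
      apply mul_dvd_mul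
      · exact pow_multiplicity_dvd _ _
      · rw [hf]; exact_mod_cast hq2
    have h7 := pow_dvd_iff_le_emultiplicity.1 h6
    rw [hLTE, hfin.emultiplicity_eq_multiplicity] at h7
    have h8 : multiplicity (q : ℤ) (y - 1) + 2 ≤ multiplicity (q : ℤ) (y - 1) + 1 := by
      exact_mod_cast h7
    omega
  -- so `f ∣ d`
  have hfd : f ∣ d := by
    rw [← Nat.factorization_le_iff_dvd hf0 hd0]
    intro q
    by_cases hq : q.Prime
    · by_cases hqf : q ∣ f
      · have h1 : f.factorization q ≤ 1 := by
          by_contra hc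
          push Not at hc
          exact hexp q hq ((hq.pow_dvd_iff_le_factorization hf0).2 hc)
        have h2 : 1 ≤ d.factorization q :=
          (hq.dvd_iff_one_le_factorization hd0).1 (hdvd q hq hqf)
        exact h1.trans h2
      · rw [Nat.factorization_eq_zero_of_not_dvd hqf]; exact Nat.zero_le _
    · rw [Nat.factorization_eq_zero_of_not_prime _ hq]; exact Nat.zero_le _
  have h1 := Nat.le_of_dvd (Nat.pos_of_ne_zero hd0) hfd
  have h2 := lt_three_pow_totient d hd
  omega

end Q239.MP
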