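import Mathlib
import Pool.Agent.Q239.MP.Prim

set_option autoImplicit false

/-!
# The greedy choice of residues
-/

namespace Q239.MP

open Finset

/-- A constraint: `((a, j, k, s), h)`. -/
abbrev Ty : Type := ℕ × ℕ × ℕ × ℤ

/-- `n j + s a^h k`. -/
def val (c : Ty × ℕ) (n : ℤ) : ℤ :=
  n * (c.1.2.1 : ℤ) + c.1.2.2.2 * ((c.1.1 : ℤ) ^ c.2 * (c.1.2.2.1 : ℤ))

/-- The types. -/
def Tys (κ : ℕ) : Finset Ty :=
  (Icc 2 κ) ×ˢ (Icc 1 κ) ×ˢ (Icc 1 κ) ×ˢ ({1, -1} : Finset ℤ)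

/-- The constraints. -/
def Cs (κ H : ℕ) : Finset (Ty × ℕ) := Tys κ ×ˢ range (H + 1)

lemma card_Tys (κ : ℕ) : (Tys κ).card ≤ 2 * κ ^ 3 := by
  have h2 : ({1, -1} : Finset ℤ).card = 2 := by decide
  rw [Tys, card_product, card_product, card_product, h2, Nat.card_Icc, Nat.card_Icc]
  have h3 : κ + 1 - 2 ≤ κ := by omega
  calc (κ + 1 - 2) * ((κ + 1 - 1) * ((κ + 1 - 1) * 2)) ≤ κ * (κ * (κ * 2)) := by
        apply Nat.mul_le_mul h3
        apply Nat.mul_le_mul (by omega)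
        apply Nat.mul_le_mul (by omega) le_rfl
    _ = 2 * κ ^ 3 := by ring

lemma Tys_nonempty {κ : ℕ} (hκ : 2 ≤ κ) : (Tys κ).Nonempty := by
  refine ⟨(2, 1, 1, 1), ?_⟩
  simp [Tys]
  omega

/-- The residue attached to a type and an exponent. -/
lemma exists_residue {κ q : ℕ} (hq : q.Prime) (hκq : κ < q) {t : Ty} (ht : t ∈ Tys κ) (i : ℕ) :
    ∃ r : ℤ, (q : ℤ) ∣ val (t, i) r := by
  obtain ⟨a, j, k, s⟩ := t
  simp only [Tys, mem_product, mem_Icc] at ht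
  obtain ⟨ha, hj, hk, hs⟩ := ht
  have := Fact.mk hq
  have hj0 : (j : ZMod q) ≠ 0 := by
    rw [Ne, ZMod.natCast_eq_zero_iff]
    intro h
    have := Nat.le_of_dvd (by omega) h
    omega
  obtain ⟨r, hr⟩ := ZMod.intCast_surjective
    (-(s : ZMod q) * ((a : ZMod q) ^ i * (k : ZMod q)) * (j : ZMod q)⁻¹)
  refine ⟨r, ?_⟩
  rw [← ZMod.intCast_zmod_eq_zero_iff_dvd]
  simp only [val]
  push_cast
  rw [hr]
  field_simp
  ring

/-- the order of `a` modulo `q` is positive. -/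
lemma orderOf_pos' {κ q : ℕ} (hq : q.Prime) (hκq : κ < q) {a : ℕ} (ha : 1 ≤ a) (haκ : a ≤ κ) :
    0 < orderOf (a : ZMod q) := by
  have := Fact.mk hq
  have ha0 : (a : ZMod q) ≠ 0 := by
    rw [Ne, ZMod.natCast_eq_zero_iff]
    intro h
    have := Nat.le_of_dvd (by omega) h
    omega
  rw [orderOf_pos_iff]
  rw [isOfFinOrder_iff_pow_eq_one]
  refine ⟨q - 1, ?_, ZMod.pow_card_sub_one_eq_one ha0⟩
  have := hq.two_le
  omega

/-- hitting depends only on the exponent modulo the order. -/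
lemma hit_of_mod {q : ℕ} {t : Ty} {h i : ℕ} {r : ℤ}
    (hi : h % orderOf (t.1 : ZMod q) = i) (hr : (q : ℤ) ∣ val (t, i) r) :
    (q : ℤ) ∣ val (t, h) r := by
  obtain ⟨a, j, k, s⟩ := t
  rw [← ZMod.intCast_zmod_eq_zero_iff_dvd] at hr ⊢
  simp only [val] at hr hi ⊢
  push_cast at hr ⊢
  rw [← hi, pow_mod_orderOf] at hr
  exact hr

/-- One step: for every weight there is a residue hitting a good proportion. -/
lemma one_step {κ q H : ℕ} (hκ : 2 ≤ κ) (hq : q.Prime) (hκq : κ < q)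
    (w : Ty × ℕ → ℝ) (hw : ∀ c, 0 ≤ w c) :
    ∃ r : ℤ, ∑ c ∈ Cs κ H, w c * (1 / ((Tys κ).card * orderOf (c.1.1 : ZMod q) : ℝ)) ≤
      ∑ c ∈ (Cs κ H) with (q : ℤ) ∣ val c r, w c := by
  classical
  set T := Tys κ with hT
  have hTn : T.Nonempty := Tys_nonempty hκ
  set V : Ty → ℝ := fun t => (1 / (orderOf (t.1 : ZMod q) : ℝ)) * ∑ h ∈ range (H + 1), w (t, h) with hV
  obtain ⟨t, ht, hmax⟩ := T.exists_max_image V hTn
  have hS : ∑ c ∈ Cs κ H, w c * (1 / ((Tys κ).card * orderOf (c.1.1 : ZMod q) : ℝ)) ≤ V t := by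
    have h1 : ∑ c ∈ Cs κ H, w c * (1 / ((Tys κ).card * orderOf (c.1.1 : ZMod q) : ℝ))
        = (1 / (T.card : ℝ)) * ∑ t ∈ T, V t := by
      rw [Cs, sum_product, mul_sum]
      refine sum_congr rfl fun t' _ => ?_
      simp only [hV]
      rw [← mul_assoc, mul_sum]
      refine sum_congr rfl fun h _ => ?_
      rw [← one_div_mul_one_div]
      ring
    rw [h1]
    have h2 : ∑ t ∈ T, V t ≤ T.card • V t := sum_le_card_nsmul _ _ _ hmax
    rw [nsmul_eq_mul] at h2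
    have hc : (0 : ℝ) < T.card := by exact_mod_cast hTn.card_pos
    calc (1 / (T.card : ℝ)) * ∑ t ∈ T, V t ≤ (1 / (T.card : ℝ)) * (T.card * V t) :=
          mul_le_mul_of_nonneg_left h2 (by positivity)
      _ = V t := by field_simp
  have htm := ht
  obtain ⟨a, j, k, s⟩ := t
  simp only [hT, Tys, mem_product, mem_Icc] at htm
  set o := orderOf (a : ZMod q) with ho
  have hopos : 0 < o := orderOf_pos' hq hκq (by omega) htm.1.2
  -- pigeonhole on the classes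
  have hfib : ∑ i ∈ range o, ∑ h ∈ range (H + 1) with h % o = i, w ((a, j, k, s), h)
      = ∑ h ∈ range (H + 1), w ((a, j, k, s), h) := by
    apply sum_fiberwise_of_maps_to
    intro h _
    exact mem_range.2 (Nat.mod_lt _ hopos)
  obtain ⟨i, hi, hmaxi⟩ := (range o).exists_max_image
    (fun i => ∑ h ∈ range (H + 1) with h % o = i, w ((a, j, k, s), h)) ⟨0, mem_range.2 hopos⟩
  have hVi : V (a, j, k, s) ≤ ∑ h ∈ range (H + 1) with h % o = i, w ((a, j, k, s), h) := by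
    simp only [hV]
    rw [← hfib]
    have h2 := sum_le_card_nsmul (range o) _ _ hmaxi
    rw [nsmul_eq_mul, card_range] at h2
    have hc : (0 : ℝ) < o := by exact_mod_cast hopos
    calc _ ≤ (1 / (o : ℝ)) * (o * ∑ h ∈ range (H + 1) with h % o = i, w ((a, j, k, s), h)) :=
          mul_le_mul_of_nonneg_left h2 (by positivity)
      _ = _ := by field_simp
  obtain ⟨r, hr⟩ := exists_residue hq hκq ht i
  refine ⟨r, hS.trans (hVi.trans ?_)⟩
  have hmap : ∑ c ∈ ((range (H + 1)).filter (fun h => h % o = i)).map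
      (⟨fun h => ((a, j, k, s), h), fun x y hxy => by simpa using hxy⟩ : ℕ ↪ Ty × ℕ), w c
      = ∑ h ∈ range (H + 1) with h % o = i, w ((a, j, k, s), h) := sum_map _ _ _
  rw [← hmap]
  apply sum_le_sum_of_subset_of_nonneg
  · intro c hc
    rw [mem_map] at hc
    obtain ⟨h, hh, rfl⟩ := hc
    rw [mem_filter] at hh ⊢
    refine ⟨?_, hit_of_mod (t := (a, j, k, s)) (by simpa using hh.2) hr⟩
    simp only [Cs, Function.Embedding.coeFn_mk, mem_product]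
    exact ⟨ht, hh.1⟩
  · intro c _ _
    exact hw c

/-- The probability attached to a prime and a constraint. -/
noncomputable def pr (κ q : ℕ) (c : Ty × ℕ) : ℝ :=
  1 / ((Tys κ).card * orderOf (c.1.1 : ZMod q) : ℝ)

lemma pr_nonneg (κ q : ℕ) (c : Ty × ℕ) : 0 ≤ pr κ q c := by
  unfold pr; positivity

lemma pr_le_one {κ : ℕ} (q : ℕ) (c : Ty × ℕ) : pr κ q c ≤ 1 := by
  unfold pr
  rw [← Nat.cast_mul]
  rcases Nat.eq_zero_or_pos ((Tys κ).card * orderOf (c.1.1 : ZMod q)) with h | h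
  · rw [h]; simp
  · rw [div_le_one (by exact_mod_cast h)]
    exact_mod_cast h

lemma one_step' {κ q H : ℕ} (hκ : 2 ≤ κ) (hq : q.Prime) (hκq : κ < q)
    (w : Ty × ℕ → ℝ) (hw : ∀ c, 0 ≤ w c) :
    ∃ r : ℤ, ∑ c ∈ Cs κ H, w c * (if (q : ℤ) ∣ val c r then (1 / 2 : ℝ) else 1) ≤
      ∑ c ∈ Cs κ H, w c * (1 - pr κ q c / 2) := by
  obtain ⟨r, hr⟩ := one_step (H := H) hκ hq hκq w hw
  refine ⟨r, ?_⟩
  have h1 : ∑ c ∈ Cs κ H, w c * (if (q : ℤ) ∣ val c r then (1 / 2 : ℝ) else 1)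
      = ∑ c ∈ Cs κ H, w c - (1 / 2) * ∑ c ∈ (Cs κ H) with (q : ℤ) ∣ val c r, w c := by
    rw [sum_filter, mul_sum, ← sum_sub_distrib]
    refine sum_congr rfl fun c _ => ?_
    split_ifs <;> ring
  have h2 : ∑ c ∈ Cs κ H, w c * (1 - pr κ q c / 2)
      = ∑ c ∈ Cs κ H, w c - (1 / 2) * ∑ c ∈ Cs κ H, w c * pr κ q c := by
    rw [mul_sum, ← sum_sub_distrib]
    refine sum_congr rfl fun c _ => ?_
    ring
  rw [h1, h2]
  have h3 : ∑ c ∈ Cs κ H, w c * pr κ q c ≤ ∑ c ∈ (Cs κ H) with (q : ℤ) ∣ val c r, w c := hr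
  linarith

/-- The greedy choice. -/
lemma greedy {κ H : ℕ} (hκ : 2 ≤ κ) (Q : Finset ℕ) (hQ : ∀ q ∈ Q, q.Prime ∧ κ < q) :
    ∀ w : Ty × ℕ → ℝ, (∀ c, 0 ≤ w c) →
    ∃ f : ℕ → ℤ, ∑ c ∈ Cs κ H, w c * ∏ q ∈ Q, (if (q : ℤ) ∣ val c (f q) then (1 / 2 : ℝ) else 1) ≤
      ∑ c ∈ Cs κ H, w c * ∏ q ∈ Q, (1 - pr κ q c / 2) := by
  classical
  induction Q using Finset.induction_on with
  | empty => intro w _; exact ⟨fun _ => 0, by simp⟩
  | insert q0 Q hq0 ih =>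
    intro w hw
    have hQ' : ∀ q ∈ Q, q.Prime ∧ κ < q := fun q hq => hQ q (mem_insert_of_mem hq)
    obtain ⟨hp0, hκ0⟩ := hQ q0 (mem_insert_self _ _)
    obtain ⟨r, hr⟩ := one_step' (H := H) hκ hp0 hκ0 (fun c => w c * ∏ q ∈ Q, (1 - pr κ q c / 2))
      (fun c => mul_nonneg (hw c) (prod_nonneg fun q _ => by
        have := pr_le_one (κ := κ) q c
        linarith))
    obtain ⟨f, hf⟩ := ih hQ' (fun c => w c * (if (q0 : ℤ) ∣ val c r then (1 / 2 : ℝ) else 1))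
      (fun c => mul_nonneg (hw c) (by split_ifs <;> norm_num))
    refine ⟨Function.update f q0 r, ?_⟩
    have h1 : ∀ c, ∏ q ∈ insert q0 Q, (if (q : ℤ) ∣ val c (Function.update f q0 r q)
        then (1 / 2 : ℝ) else 1) = (if (q0 : ℤ) ∣ val c r then (1 / 2 : ℝ) else 1) *
          ∏ q ∈ Q, (if (q : ℤ) ∣ val c (f q) then (1 / 2 : ℝ) else 1) := by
      intro c
      rw [prod_insert hq0, Function.update_self]
      congr 1
      refine prod_congr rfl fun q hq => ?_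
      rw [Function.update_of_ne]
      rintro rfl
      exact hq0 hq
    have h2 : ∀ c, ∏ q ∈ insert q0 Q, (1 - pr κ q c / 2)
        = (1 - pr κ q0 c / 2) * ∏ q ∈ Q, (1 - pr κ q c / 2) := by
      intro c
      rw [prod_insert hq0]
    simp only [h1, h2]
    calc _ = ∑ c ∈ Cs κ H, w c * (if (q0 : ℤ) ∣ val c r then (1 / 2 : ℝ) else 1) *
          ∏ q ∈ Q, (if (q : ℤ) ∣ val c (f q) then (1 / 2 : ℝ) else 1) :=
          sum_congr rfl fun c _ => by ring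
      _ ≤ _ := hf
      _ = ∑ c ∈ Cs κ H, (w c * ∏ q ∈ Q, (1 - pr κ q c / 2)) *
          (if (q0 : ℤ) ∣ val c r then (1 / 2 : ℝ) else 1) :=
          sum_congr rfl fun c _ => by ring
      _ ≤ _ := hr
      _ = _ := sum_congr rfl fun c _ => by ring

end Q239.MP
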