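import Mathlib
import Pool.Agent.Q239.MP.Avg

set_option autoImplicit false

/-!
# The potential: few constraints are hit rarely
-/

namespace Q239.MP

open Finset

/-- A prime modulo which `a ^ 2` has order `2 i + 1`. -/
noncomputable def pq (a i : ℕ) : ℕ :=
  if h : 2 ≤ a ∧ 1 ≤ i then
    Classical.choose (exists_prime_order (a ^ 2) (2 * i + 1) (by nlinarith [h.1]) ⟨i, rfl⟩
      (by omega)) else 2

lemma pq_spec {a i : ℕ} (ha : 2 ≤ a) (hi : 1 ≤ i) :
    (pq a i).Prime ∧ orderOf ((a ^ 2 : ℕ) : ZMod (pq a i)) = 2 * i + 1 := by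
  unfold pq
  rw [dif_pos ⟨ha, hi⟩]
  exact Classical.choose_spec (exists_prime_order (a ^ 2) (2 * i + 1) (by nlinarith [ha]) ⟨i, rfl⟩
      (by omega))

lemma pq_gt {a i : ℕ} (ha : 2 ≤ a) (hi : 1 ≤ i) : 2 * i + 1 < pq a i := by
  obtain ⟨hp, ho⟩ := pq_spec ha hi
  have := Fact.mk hp
  have h0 : ((a ^ 2 : ℕ) : ZMod (pq a i)) ≠ 0 := by
    intro h
    rw [h] at ho
    have h1 : orderOf (0 : ZMod (pq a i)) = 0 := by
      rw [orderOf_eq_zero_iff']
      intro n hn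
      rw [zero_pow hn.ne']
      exact zero_ne_one
    omega
  have h1 := orderOf_dvd_of_pow_eq_one (ZMod.pow_card_sub_one_eq_one h0)
  rw [ho] at h1
  have h2 := hp.two_le
  have h3 := Nat.le_of_dvd (by omega) h1
  omega

lemma pq_pow {a i : ℕ} (ha : 2 ≤ a) (hi : 1 ≤ i) :
    (a : ZMod (pq a i)) ^ (2 * (2 * i + 1)) = 1 := by
  obtain ⟨hp, ho⟩ := pq_spec ha hi
  have h1 := pow_orderOf_eq_one ((a ^ 2 : ℕ) : ZMod (pq a i))
  rw [ho] at h1
  rw [pow_mul]
  push_cast at h1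
  exact h1

lemma pq_le {a i : ℕ} (ha : 2 ≤ a) (hi : 1 ≤ i) : pq a i ≤ a ^ (2 * (2 * i + 1)) := by
  have h1 := pq_pow ha hi
  have h2 : ((a ^ (2 * (2 * i + 1)) - 1 : ℕ) : ZMod (pq a i)) = 0 := by
    rw [Nat.cast_sub (Nat.one_le_pow _ _ (by omega))]
    push_cast
    rw [h1]; simp
  rw [ZMod.natCast_eq_zero_iff] at h2
  have h3 : 1 < a ^ (2 * (2 * i + 1)) := Nat.one_lt_pow (by omega) (by omega)
  have h4 := Nat.le_of_dvd (by omega) h2
  omega

lemma pq_ord_le {a i : ℕ} (ha : 2 ≤ a) (hi : 1 ≤ i) :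
    orderOf (a : ZMod (pq a i)) ≤ 2 * (2 * i + 1) :=
  orderOf_le_of_pow_eq_one (by omega) (pq_pow ha hi)

lemma pq_inj {a i i' : ℕ} (ha : 2 ≤ a) (hi : 1 ≤ i) (hi' : 1 ≤ i') (h : pq a i = pq a i') :
    i = i' := by
  have h1 := (pq_spec ha hi).2
  have h2 := (pq_spec ha hi').2
  rw [← h] at h2
  omega

/-- The set of primes. -/
noncomputable def Qs (κ N : ℕ) : Finset ℕ :=
  ((Icc 2 κ) ×ˢ (Icc κ N)).image (fun p => pq p.1 p.2)

lemma Qs_spec {κ N : ℕ} (hκ : 2 ≤ κ) : ∀ q ∈ Qs κ N, q.Prime ∧ κ < q := by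
  intro q hq
  rw [Qs, mem_image] at hq
  obtain ⟨⟨a, i⟩, hai, rfl⟩ := hq
  simp only [mem_product, mem_Icc] at hai
  refine ⟨(pq_spec hai.1.1 (by omega)).1, ?_⟩
  have := pq_gt (a := a) (i := i) hai.1.1 (by omega)
  simp only
  omega

lemma card_Qs {κ N : ℕ} (_hκ : 2 ≤ κ) : (Qs κ N).card ≤ κ * N := by
  refine card_image_le.trans ?_
  rw [card_product, Nat.card_Icc, Nat.card_Icc]
  exact Nat.mul_le_mul (by omega) (by omega)

lemma prod_Qs_le {κ N : ℕ} (hκ : 2 ≤ κ) (hN : κ ≤ N) : ∏ q ∈ Qs κ N, q ≤ κ ^ (6 * κ * N ^ 2) := by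
  have h1 : ∀ q ∈ Qs κ N, q ≤ κ ^ (6 * N) := by
    intro q hq
    rw [Qs, mem_image] at hq
    obtain ⟨⟨a, i⟩, hai, rfl⟩ := hq
    simp only [mem_product, mem_Icc] at hai
    refine (pq_le hai.1.1 (by omega)).trans ?_
    calc a ^ (2 * (2 * i + 1)) ≤ κ ^ (2 * (2 * i + 1)) := Nat.pow_le_pow_left hai.1.2 _
      _ ≤ κ ^ (6 * N) := Nat.pow_le_pow_right (by omega) (by omega)
  calc ∏ q ∈ Qs κ N, q ≤ (κ ^ (6 * N)) ^ (Qs κ N).card := prod_le_pow_card _ _ _ h1
    _ ≤ (κ ^ (6 * N)) ^ (κ * N) :=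
        Nat.pow_le_pow_right (Nat.pow_pos (by omega)) (card_Qs hκ)
    _ = κ ^ (6 * κ * N ^ 2) := by rw [← pow_mul]; congr 1; ring

lemma sum_inv_ge {κ : ℕ} (hκ : 1 ≤ κ) : ∀ N, κ ≤ N →
    Real.log (((N : ℝ) + 1) / κ) ≤ ∑ i ∈ Icc κ N, (1 / (i : ℝ)) := by
  intro N hN
  induction N, hN using Nat.le_induction with
  | base =>
    simp only [Icc_self, sum_singleton]
    have hk : (0 : ℝ) < κ := by exact_mod_cast hκ
    have h1 : ((κ : ℝ) + 1) / κ = 1 + 1 / κ := by field_simp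
    rw [h1]
    have := Real.log_le_sub_one_of_pos (x := 1 + 1 / (κ : ℝ)) (by positivity)
    linarith
  | succ n hn ih =>
    rw [Finset.sum_Icc_succ_top (by omega)]
    have hk : (0 : ℝ) < κ := by exact_mod_cast hκ
    have hn0 : (0 : ℝ) < (n : ℝ) + 1 := by positivity
    have h1 : ((((n + 1 : ℕ) : ℝ)) + 1) / κ = (((n : ℝ) + 1) / κ) * (1 + 1 / ((n : ℝ) + 1)) := by
      push_cast
      field_simp
    rw [h1, Real.log_mul (by positivity) (by positivity)]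
    have h2 := Real.log_le_sub_one_of_pos (x := 1 + 1 / ((n : ℝ) + 1)) (by positivity)
    have h3 : (1 / (((n + 1 : ℕ)) : ℝ)) = 1 / ((n : ℝ) + 1) := by push_cast; rfl
    rw [h3]
    linarith

/-- The exponent. -/
noncomputable def eta (κ : ℕ) : ℝ := 1 / (24 * (κ : ℝ) ^ 3)

lemma sum_pr_ge {κ N H : ℕ} (hκ : 2 ≤ κ) (hN : κ ≤ N) {c : Ty × ℕ} (hc : c ∈ Cs κ H) :
    2 * eta κ * Real.log (((N : ℝ) + 1) / κ) ≤ ∑ q ∈ Qs κ N, pr κ q c := by
  classical
  obtain ⟨⟨a, j, k, s⟩, h⟩ := c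
  simp only [Cs, Tys, mem_product, mem_Icc] at hc
  have ha2 : 2 ≤ a := hc.1.1.1
  have haκ : a ≤ κ := hc.1.1.2
  have hκ0 : (0 : ℝ) < κ := by exact_mod_cast (by omega : 0 < κ)
  have hT : (0 : ℝ) < (Tys κ).card := by exact_mod_cast (Tys_nonempty hκ).card_pos
  have hT2 : ((Tys κ).card : ℝ) ≤ 2 * (κ : ℝ) ^ 3 := by exact_mod_cast card_Tys κ
  have hinj : Set.InjOn (fun i => pq a i) (Icc κ N : Finset ℕ) := by
    intro i hi i' hi' h
    simp only [coe_Icc, Set.mem_Icc] at hi hi'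
    exact pq_inj ha2 (by omega) (by omega) h
  have hsub : (Icc κ N).image (fun i => pq a i) ⊆ Qs κ N := by
    intro q hq
    rw [mem_image] at hq
    obtain ⟨i, hi, rfl⟩ := hq
    rw [Qs, mem_image]
    refine ⟨(a, i), ?_, rfl⟩
    simp only [mem_product, mem_Icc] at hi ⊢
    exact ⟨⟨ha2, haκ⟩, hi⟩
  calc 2 * eta κ * Real.log (((N : ℝ) + 1) / κ)
      ≤ 2 * eta κ * ∑ i ∈ Icc κ N, (1 / (i : ℝ)) := by
        apply mul_le_mul_of_nonneg_left (sum_inv_ge (by omega) N hN)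
        unfold eta; positivity
    _ = ∑ i ∈ Icc κ N, 2 * eta κ * (1 / (i : ℝ)) := by rw [mul_sum]
    _ ≤ ∑ i ∈ Icc κ N, pr κ (pq a i) ((a, j, k, s), h) := by
        refine sum_le_sum fun i hi => ?_
        rw [mem_Icc] at hi
        have hi0 : (1 : ℝ) ≤ i := by exact_mod_cast (by omega : 1 ≤ i)
        have ho := pq_ord_le ha2 (by omega : 1 ≤ i)
        have hop : 0 < orderOf (a : ZMod (pq a i)) := by
          have h1 := pq_gt ha2 (by omega : 1 ≤ i)
          exact orderOf_pos' (κ := κ) (pq_spec ha2 (by omega)).1 (by omega) (by omega) haκ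
        have hop' : (0 : ℝ) < orderOf (a : ZMod (pq a i)) := by exact_mod_cast hop
        have ho' : (orderOf (a : ZMod (pq a i)) : ℝ) ≤ 6 * i := by
          have h2 : (orderOf (a : ZMod (pq a i)) : ℝ) ≤ ((2 * (2 * i + 1) : ℕ) : ℝ) := by
            exact_mod_cast ho
          push_cast at h2
          linarith
        simp only [pr]
        have h3 : 2 * eta κ * (1 / (i : ℝ)) = 1 / ((2 * (κ : ℝ) ^ 3) * (6 * i)) := by
          unfold eta
          field_simp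
          norm_num
        rw [h3]
        apply one_div_le_one_div_of_le (by positivity)
        exact mul_le_mul hT2 ho' hop'.le (by positivity)
    _ = ∑ q ∈ (Icc κ N).image (fun i => pq a i), pr κ q ((a, j, k, s), h) := by
        rw [sum_image hinj]
    _ ≤ _ := sum_le_sum_of_subset_of_nonneg hsub fun q _ _ => pr_nonneg _ _ _

lemma prod_pr_le {κ N H : ℕ} (hκ : 2 ≤ κ) (hN : κ ≤ N) {c : Ty × ℕ} (hc : c ∈ Cs κ H) :
    ∏ q ∈ Qs κ N, (1 - pr κ q c / 2) ≤ (((N : ℝ) + 1) / κ) ^ (-eta κ) := by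
  have hκ0 : (0 : ℝ) < κ := by exact_mod_cast (by omega : 0 < κ)
  calc ∏ q ∈ Qs κ N, (1 - pr κ q c / 2) ≤ ∏ q ∈ Qs κ N, Real.exp (-(pr κ q c / 2)) := by
        apply prod_le_prod
        · intro q _
          have := pr_le_one (κ := κ) q c
          linarith
        · intro q _
          have := Real.add_one_le_exp (-(pr κ q c / 2))
          linarith
    _ = Real.exp (-(∑ q ∈ Qs κ N, pr κ q c) / 2) := by
        rw [← Real.exp_sum]
        congr 1
        rw [neg_div, sum_div, ← sum_neg_distrib]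
    _ ≤ Real.exp (-(eta κ * Real.log (((N : ℝ) + 1) / κ))) := by
        apply Real.exp_le_exp.2
        have := sum_pr_ge hκ hN hc
        linarith
    _ = _ := by
        rw [Real.rpow_def_of_pos (by positivity)]
        congr 1; ring

/-- The set of primes of `S` dividing the value of the constraint `c`, for residues `f`. -/
def hits (S : Finset ℕ) (f : ℕ → ℤ) (c : Ty × ℕ) : Finset ℕ := S.filter fun q => (q : ℤ) ∣ val c (f q)

/-- Few constraints are hit less than `m` times. -/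
lemma deficient {κ N H : ℕ} (hκ : 2 ≤ κ) (hN : κ ≤ N) (m : ℕ) :
    ∃ f : ℕ → ℤ, (((Cs κ H).filter fun c => (hits (Qs κ N) f c).card < m).card : ℝ) ≤
      2 ^ m * (2 * (κ : ℝ) ^ 3 * (H + 1)) * (((N : ℝ) + 1) / κ) ^ (-eta κ) := by
  classical
  obtain ⟨f, hf⟩ := greedy (H := H) hκ (Qs κ N) (Qs_spec hκ) (fun _ => 1) (fun _ => zero_le_one)
  refine ⟨f, ?_⟩
  simp only [one_mul] at hf
  have hprod : ∀ c, ∏ q ∈ Qs κ N, (if (q : ℤ) ∣ val c (f q) then (1 / 2 : ℝ) else 1)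
      = (1 / 2) ^ (hits (Qs κ N) f c).card := by
    intro c
    rw [prod_ite]
    simp [hits]
  simp only [hprod] at hf
  have hup : ∑ c ∈ Cs κ H, ∏ q ∈ Qs κ N, (1 - pr κ q c / 2) ≤
      (2 * (κ : ℝ) ^ 3 * (H + 1)) * (((N : ℝ) + 1) / κ) ^ (-eta κ) := by
    calc _ ≤ ∑ c ∈ Cs κ H, (((N : ℝ) + 1) / κ) ^ (-eta κ) :=
          sum_le_sum fun c hc => prod_pr_le hκ hN hc
      _ = (Cs κ H).card * (((N : ℝ) + 1) / κ) ^ (-eta κ) := by rw [sum_const, nsmul_eq_mul]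
      _ ≤ _ := by
        apply mul_le_mul_of_nonneg_right _ (by positivity)
        have h1 : (Cs κ H).card ≤ 2 * κ ^ 3 * (H + 1) := by
          rw [Cs, card_product, card_range]
          exact Nat.mul_le_mul_right _ (card_Tys κ)
        exact_mod_cast h1
  have hlow : (((Cs κ H).filter fun c => (hits (Qs κ N) f c).card < m).card : ℝ) * (1 / 2) ^ m ≤
      ∑ c ∈ Cs κ H, (1 / 2 : ℝ) ^ (hits (Qs κ N) f c).card := by
    calc _ = ∑ c ∈ (Cs κ H).filter fun c => (hits (Qs κ N) f c).card < m, (1 / 2 : ℝ) ^ m := by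
          rw [sum_const, nsmul_eq_mul]
      _ ≤ ∑ c ∈ (Cs κ H).filter fun c => (hits (Qs κ N) f c).card < m,
            (1 / 2 : ℝ) ^ (hits (Qs κ N) f c).card := by
          refine sum_le_sum fun c hc => ?_
          rw [mem_filter] at hc
          exact pow_le_pow_of_le_one (by norm_num) (by norm_num) hc.2.le
      _ ≤ _ := sum_le_sum_of_subset_of_nonneg (filter_subset _ _) fun c _ _ => by positivity
  have h2 := hlow.trans (hf.trans hup)
  have h3 : (0 : ℝ) < 2 ^ m := by positivity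
  calc (((Cs κ H).filter fun c => (hits (Qs κ N) f c).card < m).card : ℝ)
      = 2 ^ m * ((((Cs κ H).filter fun c => (hits (Qs κ N) f c).card < m).card : ℝ) * (1 / 2) ^ m) := by
        rw [one_div, inv_pow]
        field_simp
    _ ≤ 2 ^ m * ((2 * (κ : ℝ) ^ 3 * (H + 1)) * (((N : ℝ) + 1) / κ) ^ (-eta κ)) :=
        mul_le_mul_of_nonneg_left h2 h3.le
    _ = _ := by ring

end Q239.MP
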