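import Mathlib
import Pool.Agent.Q239.MP.Pot

set_option autoImplicit false

/-!
# Repairing the deficient constraints, and the Chinese remainder theorem
-/

namespace Q239.MP

open Finset

lemma repair {κ N H m : ℕ} (hκ : 2 ≤ κ) (S : Finset ℕ)
    (hS : ∀ q ∈ S, q.Prime ∧ κ < q ∧ q ∉ Qs κ N) (f : ℕ → ℤ)
    (hcard : ((Cs κ H).filter fun c => (hits (Qs κ N) f c).card < m).card * m = S.card) :
    ∃ f' : ℕ → ℤ, ∀ c ∈ Cs κ H, m ≤ (hits (Qs κ N ∪ S) f' c).card := by
  classical
  set B := (Cs κ H).filter fun c => (hits (Qs κ N) f c).card < m with hB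
  have hc2 : S.card = (B ×ˢ range m).card := by rw [card_product, card_range, hcard]
  set e := Finset.equivOfCardEq hc2 with he
  have hBT : ∀ c ∈ B, c.1 ∈ Tys κ := by
    intro c hc
    rw [hB, mem_filter, Cs, mem_product] at hc
    exact hc.1.1
  have hres : ∀ q : S, ∃ r : ℤ, ((q : ℕ) : ℤ) ∣ val ((e q).1.1) r := by
    intro q
    have hq := hS q q.2
    have h1 := (e q).2
    rw [mem_product] at h1
    exact exists_residue hq.1 hq.2.1 (hBT _ h1.1) _
  choose g hg using hres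
  refine ⟨fun q => if hq : q ∈ S then g ⟨q, hq⟩ else f q, ?_⟩
  intro c hc
  by_cases hcB : (hits (Qs κ N) f c).card < m
  · have hcB' : c ∈ B := by rw [hB, mem_filter]; exact ⟨hc, hcB⟩
    -- the primes assigned to `c`
    have hsub : (range m).attach.image
        (fun i => ((e.symm ⟨(c, i.1), mem_product.2 ⟨hcB', i.2⟩⟩ : S) : ℕ)) ⊆
        hits (Qs κ N ∪ S) (fun q => if hq : q ∈ S then g ⟨q, hq⟩ else f q) c := by
      intro q hq
      rw [mem_image] at hq
      obtain ⟨i, _, rfl⟩ := hq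
      set q' := e.symm ⟨(c, i.1), mem_product.2 ⟨hcB', i.2⟩⟩ with hq'
      rw [hits, mem_filter]
      refine ⟨mem_union_right _ q'.2, ?_⟩
      have h1 : dite ((q' : ℕ) ∈ S) (fun hq => g ⟨q', hq⟩) (fun _ => f q') = g q' := by
        rw [dif_pos q'.2]
      simp only [h1]
      have h2 := hg q'
      have h3 : e q' = ⟨(c, i.1), mem_product.2 ⟨hcB', i.2⟩⟩ := by rw [hq', Equiv.apply_symm_apply]
      rw [h3] at h2
      exact h2
    refine le_trans ?_ (card_le_card hsub)
    rw [card_image_of_injective]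
    · rw [card_attach, card_range]
    · intro i i' hii
      have h1 := Subtype.ext hii
      have h2 := e.symm.injective h1
      have h3 := congrArg (fun z : (B ×ˢ range m : Finset _) => z.1.2) h2
      exact Subtype.ext h3
  · push Not at hcB
    refine hcB.trans (card_le_card ?_)
    intro q hq
    rw [hits, mem_filter] at hq ⊢
    refine ⟨mem_union_left _ hq.1, ?_⟩
    have hqS : q ∉ S := fun h => (hS q h).2.2 hq.1
    simp only [dif_neg hqS]
    exact hq.2

/-- `ω`, with `ω(0) = 0`. -/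
def omega (z : ℤ) : ℕ := z.natAbs.primeFactors.card

theorem core {κ N H m Y : ℕ} (hκ : 2 ≤ κ) (hN : κ ≤ N) (hY1 : 1 ≤ Y)
    (hY : (2 ^ m * (2 * (κ : ℝ) ^ 3 * (H + 1)) * (((N : ℝ) + 1) / κ) ^ (-eta κ)) * m
      + κ * N + κ + 1 ≤ (Nat.primeCounting Y : ℝ)) :
    ∃ M : ℕ, 0 < M ∧ Real.log M ≤ 6 * κ * N ^ 2 * Real.log κ +
      (2 ^ m * (2 * (κ : ℝ) ^ 3 * (H + 1)) * (((N : ℝ) + 1) / κ) ^ (-eta κ)) * m * Real.log Y ∧
      ∃ r : ℤ, ∀ n : ℤ, (M : ℤ) ∣ n - r → ∀ c ∈ Cs κ H, val c n ≠ 0 → m ≤ omega (val c n) := by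
  classical
  obtain ⟨f, hf⟩ := deficient (H := H) hκ hN m
  set R : ℝ := 2 ^ m * (2 * (κ : ℝ) ^ 3 * (H + 1)) * (((N : ℝ) + 1) / κ) ^ (-eta κ) with hR
  set B := (Cs κ H).filter fun c => (hits (Qs κ N) f c).card < m with hB
  have hP : ((B.card * m : ℕ) : ℝ) ≤ R * m := by
    push_cast
    exact mul_le_mul_of_nonneg_right hf (Nat.cast_nonneg _)
  -- the available primes
  set A := (Nat.primesLE Y) \ (Qs κ N ∪ range (κ + 1)) with hA
  have hAcard : B.card * m ≤ A.card := by
    have h1 : (Nat.primesLE Y).card - (Qs κ N ∪ range (κ + 1)).card ≤ A.card := le_card_sdiff _ _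
    have h2 : (Qs κ N ∪ range (κ + 1)).card ≤ κ * N + (κ + 1) := by
      refine (card_union_le _ _).trans ?_
      rw [card_range]
      exact Nat.add_le_add_right (card_Qs hκ) _
    have h3 : (Nat.primesLE Y).card = Nat.primeCounting Y := Nat.primesLE_card_eq_primeCounting Y
    have h4 : B.card * m + (κ * N + (κ + 1)) ≤ Nat.primeCounting Y := by
      have : ((B.card * m + (κ * N + (κ + 1)) : ℕ) : ℝ) ≤ (Nat.primeCounting Y : ℝ) := by
        push_cast at hP ⊢
        linarith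
      exact_mod_cast this
    omega
  obtain ⟨S, hSA, hScard⟩ := exists_subset_card_eq hAcard
  have hS : ∀ q ∈ S, q.Prime ∧ κ < q ∧ q ∉ Qs κ N := by
    intro q hq
    have h1 := hSA hq
    rw [hA, mem_sdiff, mem_union, not_or, mem_range, Nat.mem_primesLE] at h1
    exact ⟨h1.1.2, by omega, h1.2.1⟩
  have hSY : ∀ q ∈ S, q ≤ Y := by
    intro q hq
    have h1 := hSA hq
    rw [hA, mem_sdiff, Nat.mem_primesLE] at h1
    exact h1.1.1
  obtain ⟨f', hf'⟩ := repair hκ S hS f hScard.symm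
  have hprime : ∀ q ∈ Qs κ N ∪ S, q.Prime := by
    intro q hq
    rw [mem_union] at hq
    rcases hq with hq | hq
    · exact (Qs_spec hκ q hq).1
    · exact (hS q hq).1
  set Q := Qs κ N ∪ S with hQ
  set M := ∏ q ∈ Q, q with hM
  have hMpos : 0 < M := prod_pos fun q hq => (hprime q hq).pos
  refine ⟨M, hMpos, ?_, ?_⟩
  · have hdisj : Disjoint (Qs κ N) S := by
      rw [disjoint_left]
      intro q hq hqS
      exact (hS q hqS).2.2 hq
    have hMle : M ≤ κ ^ (6 * κ * N ^ 2) * Y ^ (B.card * m) := by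
      rw [hM, hQ, prod_union hdisj]
      refine Nat.mul_le_mul (prod_Qs_le hκ hN) ?_
      rw [← hScard]
      exact prod_le_pow_card _ _ _ hSY
    have hκ0 : (0 : ℝ) < κ := by exact_mod_cast (by omega : 0 < κ)
    have hY0 : (0 : ℝ) < Y := by exact_mod_cast (by omega : 0 < Y)
    have hM0 : (0 : ℝ) < M := by exact_mod_cast hMpos
    have h1 : Real.log M ≤ Real.log ((κ : ℝ) ^ (6 * κ * N ^ 2) * (Y : ℝ) ^ (B.card * m)) := by
      apply Real.log_le_log hM0
      exact_mod_cast hMle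
    rw [Real.log_mul (by positivity) (by positivity), Real.log_pow, Real.log_pow] at h1
    refine h1.trans ?_
    have hlY : 0 ≤ Real.log Y := Real.log_nonneg (by exact_mod_cast hY1)
    have h2 : ((B.card * m : ℕ) : ℝ) * Real.log Y ≤ R * m * Real.log Y :=
      mul_le_mul_of_nonneg_right hP hlY
    have h3 : ((6 * κ * N ^ 2 : ℕ) : ℝ) * Real.log κ = 6 * κ * N ^ 2 * Real.log κ := by
      push_cast; ring
    rw [h3]
    linarith
  · -- CRT
    have hco : Set.Pairwise (Q : Set ℕ) (Function.onFun Nat.Coprime (fun q : ℕ => q)) := by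
      intro q hq q' hq' hne
      exact (Nat.coprime_primes (hprime q hq) (hprime q' hq')).2 hne
    obtain ⟨k, hk⟩ := Nat.chineseRemainderOfFinset (fun q => ((f' q) % (q : ℤ)).toNat)
      (fun q : ℕ => q) Q (fun q hq => (hprime q hq).ne_zero) hco
    refine ⟨k, ?_⟩
    intro n hn c hc hval
    refine (hf' c hc).trans ?_
    unfold omega
    apply card_le_card
    intro q hq
    rw [hits, mem_filter] at hq
    have hqp := hprime q hq.1
    have hq0 : (q : ℤ) ≠ 0 := by exact_mod_cast hqp.ne_zero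
    rw [Nat.mem_primeFactors]
    refine ⟨hqp, ?_, by simpa using hval⟩
    rw [← Int.natCast_dvd]
    -- `q ∣ n - f' q`
    have h1 : (q : ℤ) ∣ n - k := by
      refine dvd_trans ?_ hn
      exact_mod_cast dvd_prod_of_mem (fun q => q) hq.1
    have h2 : (q : ℤ) ∣ (k : ℤ) - f' q := by
      have h3 := hk q hq.1
      have h4 : (q : ℤ) ∣ ((((f' q) % (q : ℤ)).toNat : ℕ) : ℤ) - (k : ℤ) :=
        (Nat.modEq_iff_dvd.1 h3)
      rw [Int.toNat_of_nonneg (Int.emod_nonneg _ hq0)] at h4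
      have h5 : (q : ℤ) ∣ f' q - f' q % q := Int.dvd_self_sub_emod
      have h6 := dvd_add h4 h5
      have h7 : (f' q % (q : ℤ) - (k : ℤ)) + (f' q - f' q % (q : ℤ)) = -((k : ℤ) - f' q) := by ring
      rw [h7] at h6
      exact (dvd_neg.1 h6)
    have h3 : (q : ℤ) ∣ n - f' q := by
      have := dvd_add h1 h2
      simpa using this
    have h4 : val c n = val c (f' q) + (n - f' q) * (c.1.2.1 : ℤ) := by
      simp only [val]; ring
    rw [h4]
    exact dvd_add hq.2 (h3.mul_right _)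

end Q239.MP
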