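import Mathlib
import Pool.Agent.Q239.MP.Crt

set_option autoImplicit false

/-!
# Asymptotic inequalities
-/

namespace Q239.MP

open Filter Topology

lemma ev_log_le {a b : ℝ} (ha : 0 < a) (hb : 0 < b) :
    ∀ᶠ X : ℝ in atTop, Real.log X ≤ b * X ^ a := by
  have h := (isLittleO_log_rpow_atTop ha).bound hb
  filter_upwards [h, eventually_ge_atTop (1 : ℝ)] with X hX hX1
  have h1 : 0 ≤ X ^ a := Real.rpow_nonneg (by linarith) _
  rw [Real.norm_of_nonneg h1] at hX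
  exact (le_abs_self _).trans hX

/-- `π(n) ≥ √n` for large `n`. -/
lemma ev_pi_ge : ∀ᶠ n : ℕ in atTop, Real.sqrt n ≤ (Nat.primeCounting n : ℝ) := by
  have h1 := (ev_log_le (a := 1 / 2) (b := 1 / 10) (by norm_num) (by norm_num))
  have h2 := tendsto_natCast_atTop_atTop (R := ℝ) |>.eventually h1
  filter_upwards [h2, eventually_ge_atTop 10] with n hn hn10
  have hn10' : (10 : ℝ) ≤ n := by exact_mod_cast hn10
  have hn0 : (0 : ℝ) < n := by linarith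
  have h3 := Chebyshev.pi_ge n
  have hlog : 0 < Real.log n := Real.log_pos (by linarith)
  refine le_trans ?_ h3
  rw [le_div_iff₀ hlog]
  rw [← Real.sqrt_eq_rpow] at hn
  have hs : Real.sqrt n * Real.sqrt n = n := Real.mul_self_sqrt hn0.le
  have hs1 : 1 ≤ Real.sqrt n := by
    rw [Real.one_le_sqrt]; linarith
  have h4 : Real.sqrt n * Real.log n ≤ (1 / 10) * n := by
    calc Real.sqrt n * Real.log n ≤ Real.sqrt n * ((1 / 10) * Real.sqrt n) :=
          mul_le_mul_of_nonneg_left hn (by positivity)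
      _ = (1 / 10) * n := by rw [← hs]; ring_nf; rw [Real.sqrt_sq (by positivity)]
  have h5 : Real.log n ≤ (1 / 10) * n := by nlinarith
  have h6 : Real.log ((n : ℝ) + 1) ≤ Real.log 2 + Real.log n := by
    rw [← Real.log_mul (by norm_num) (by positivity)]
    apply Real.log_le_log (by positivity)
    linarith
  have h7 : Real.log 2 ≤ 1 := by
    have := Real.log_two_lt_d9; linarith
  have h8 : 0.69 ≤ Real.log 2 := by
    have := Real.log_two_gt_d9; linarith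
  nlinarith

lemma ev_pi_ceil : ∀ᶠ X : ℝ in atTop, X ≤ (Nat.primeCounting ⌈X ^ 2⌉₊ : ℝ) := by
  have h1 : Tendsto (fun X : ℝ => ⌈X ^ 2⌉₊) atTop atTop :=
    tendsto_nat_ceil_atTop.comp (tendsto_pow_atTop (by norm_num))
  filter_upwards [h1.eventually ev_pi_ge, eventually_ge_atTop (0 : ℝ)] with X hX hX0
  refine le_trans ?_ hX
  apply Real.le_sqrt_of_sq_le
  exact Nat.le_ceil _

section params

variable (K : ℝ) (κ : ℕ) (η δ : ℝ)

/-- The number of primes used for the repair (upper bound). -/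
noncomputable def RR (X : ℝ) : ℝ :=
  (2 ^ ⌈η / (8 * Real.log 2) * Real.log X⌉₊ * (2 * (κ : ℝ) ^ 3 * ((⌊K * X⌋₊ : ℝ) + 1)) *
    (((⌊Real.sqrt (δ * X)⌋₊ : ℝ) + 1) / κ) ^ (-η)) * (⌈η / (8 * Real.log 2) * Real.log X⌉₊ : ℝ)

variable {K κ η δ}

lemma ev_RR (hK : 2 ≤ K) (hκ : 2 ≤ κ) (hη : 0 < η) (hδ : 0 < δ) :
    ∃ A : ℝ, 0 < A ∧ ∀ᶠ X : ℝ in atTop, RR K κ η δ X ≤ A * X ^ (1 - η / 4) := by
  have hκ0 : (0 : ℝ) < κ := by exact_mod_cast (by omega : 0 < κ)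
  have hl2 : 0 < Real.log 2 := Real.log_pos (by norm_num)
  set c := η / (8 * Real.log 2) with hc
  have hc0 : 0 < c := by positivity
  have hcl : c * Real.log 2 = η / 8 := by rw [hc]; field_simp
  refine ⟨2 * (4 * (κ : ℝ) ^ 3 * K) * (Real.sqrt δ / κ) ^ (-η), by positivity, ?_⟩
  have e1 := ev_log_le (a := η / 8) (b := 1 / (2 * c)) (by positivity) (by positivity)
  have e2 : ∀ᶠ X : ℝ in atTop, (2 : ℝ) ≤ X ^ (η / 8) :=
    (tendsto_rpow_atTop (by positivity)).eventually_ge_atTop 2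
  filter_upwards [e1, e2, eventually_ge_atTop (1 : ℝ)] with X h1 h2 hX1
  have hX0 : 0 < X := by linarith
  have hlX : 0 ≤ Real.log X := Real.log_nonneg hX1
  have hm : (⌈c * Real.log X⌉₊ : ℝ) ≤ c * Real.log X + 1 := (Nat.ceil_lt_add_one (by positivity)).le
  -- first factor
  have f1 : (2 : ℝ) ^ ⌈c * Real.log X⌉₊ ≤ 2 * X ^ (η / 8) := by
    calc (2 : ℝ) ^ ⌈c * Real.log X⌉₊ = (2 : ℝ) ^ ((⌈c * Real.log X⌉₊ : ℕ) : ℝ) := by
          rw [Real.rpow_natCast]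
      _ ≤ (2 : ℝ) ^ (c * Real.log X + 1) := Real.rpow_le_rpow_of_exponent_le (by norm_num) hm
      _ = 2 * X ^ (η / 8) := by
          rw [Real.rpow_add (by norm_num), Real.rpow_one, Real.rpow_def_of_pos (by norm_num),
            Real.rpow_def_of_pos hX0, ← hcl]
          ring_nf
  have f2 : 2 * (κ : ℝ) ^ 3 * ((⌊K * X⌋₊ : ℝ) + 1) ≤ 4 * (κ : ℝ) ^ 3 * K * X := by
    have h3 : (⌊K * X⌋₊ : ℝ) ≤ K * X := Nat.floor_le (by positivity)
    have h4 : 1 ≤ K * X := by nlinarith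
    have h5 : (0 : ℝ) < (κ : ℝ) ^ 3 := by positivity
    nlinarith
  have f3 : (((⌊Real.sqrt (δ * X)⌋₊ : ℝ) + 1) / κ) ^ (-η) ≤
      (Real.sqrt δ / κ) ^ (-η) * X ^ (-(η / 2)) := by
    have h3 : Real.sqrt δ / κ * Real.sqrt X ≤ ((⌊Real.sqrt (δ * X)⌋₊ : ℝ) + 1) / κ := by
      rw [div_mul_eq_mul_div, ← Real.sqrt_mul hδ.le]
      apply div_le_div_of_nonneg_right _ hκ0.le
      exact (Nat.lt_floor_add_one _).le
    have hs : 0 < Real.sqrt X := Real.sqrt_pos.2 hX0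
    have hs2 : 0 < Real.sqrt δ := Real.sqrt_pos.2 hδ
    calc _ ≤ (Real.sqrt δ / κ * Real.sqrt X) ^ (-η) :=
          Real.rpow_le_rpow_of_nonpos (by positivity) h3 (by linarith)
      _ = (Real.sqrt δ / κ) ^ (-η) * (Real.sqrt X) ^ (-η) :=
          Real.mul_rpow (by positivity) (by positivity)
      _ = _ := by
          congr 1
          rw [Real.sqrt_eq_rpow, ← Real.rpow_mul hX0.le]
          congr 1; ring
  have f4 : (⌈c * Real.log X⌉₊ : ℝ) ≤ X ^ (η / 8) := by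
    refine hm.trans ?_
    have : c * Real.log X ≤ (1 / 2) * X ^ (η / 8) := by
      calc c * Real.log X ≤ c * (1 / (2 * c) * X ^ (η / 8)) := mul_le_mul_of_nonneg_left h1 hc0.le
        _ = _ := by field_simp
    linarith
  unfold RR
  rw [← hc]
  have hp : X ^ (1 - η / 4) = X ^ (η / 8) * X * X ^ (-(η / 2)) * X ^ (η / 8) := by
    have : X ^ (η / 8) * X * X ^ (-(η / 2)) * X ^ (η / 8)
        = X ^ (η / 8) * X ^ (1 : ℝ) * X ^ (-(η / 2)) * X ^ (η / 8) := by rw [Real.rpow_one]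
    rw [this, ← Real.rpow_add hX0, ← Real.rpow_add hX0, ← Real.rpow_add hX0]
    congr 1; ring
  calc _ ≤ ((2 * X ^ (η / 8)) * (4 * (κ : ℝ) ^ 3 * K * X) *
        ((Real.sqrt δ / κ) ^ (-η) * X ^ (-(η / 2)))) * X ^ (η / 8) := by
        apply mul_le_mul _ f4 (by positivity) (by positivity)
        apply mul_le_mul _ f3 (by positivity) (by positivity)
        exact mul_le_mul f1 f2 (by positivity) (by positivity)
    _ = _ := by rw [hp]; ring

lemma ev_lin {A B c a : ℝ} (ha : a < 1) (hc : 0 < c) :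
    ∀ᶠ X : ℝ in atTop, A * X ^ a + B ≤ c * X := by
  have h1 : Tendsto (fun X : ℝ => X ^ (-(1 - a))) atTop (𝓝 0) :=
    tendsto_rpow_neg_atTop (by linarith)
  have h2 : Tendsto (fun X : ℝ => A * X ^ (-(1 - a)) + B * X⁻¹) atTop (𝓝 0) := by
    simpa using (h1.const_mul A).add (tendsto_inv_atTop_zero.const_mul B)
  filter_upwards [h2.eventually_le_const hc, eventually_gt_atTop (0 : ℝ)] with X hX hX0
  have h3 : A * X ^ a + B = (A * X ^ (-(1 - a)) + B * X⁻¹) * X := by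
    have h4 : X ^ a = X ^ (-(1 - a)) * X := by
      conv_rhs => rw [← Real.rpow_one X, ← Real.rpow_mul hX0.le, one_mul, ← Real.rpow_add hX0]
      congr 1; ring
    rw [h4]
    field_simp
  rw [h3]
  exact mul_le_mul_of_nonneg_right hX hX0.le

lemma ev_E2 (hK : 2 ≤ K) (hκ : 2 ≤ κ) (hη : 0 < η) (hδ : 0 < δ) :
    ∀ᶠ X : ℝ in atTop, RR K κ η δ X + κ * (⌊Real.sqrt (δ * X)⌋₊ : ℝ) + κ + 1 ≤
      (Nat.primeCounting ⌈X ^ 2⌉₊ : ℝ) := by
  obtain ⟨A, hA, hR⟩ := ev_RR hK hκ hη hδ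
  have e1 := ev_lin (A := A) (B := 0) (c := 1 / 2) (a := 1 - η / 4) (by linarith) (by norm_num)
  have e2 := ev_lin (A := κ * Real.sqrt δ) (B := κ + 1) (c := 1 / 2) (a := 1 / 2) (by norm_num)
    (by norm_num)
  filter_upwards [hR, e1, e2, ev_pi_ceil, eventually_ge_atTop (0 : ℝ)] with X h1 h2 h3 h4 hX0
  refine le_trans ?_ h4
  have h5 : (⌊Real.sqrt (δ * X)⌋₊ : ℝ) ≤ Real.sqrt δ * X ^ (1 / 2 : ℝ) := by
    rw [← Real.sqrt_eq_rpow, ← Real.sqrt_mul hδ.le]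
    exact Nat.floor_le (Real.sqrt_nonneg _)
  have h6 : κ * (⌊Real.sqrt (δ * X)⌋₊ : ℝ) ≤ κ * (Real.sqrt δ * X ^ (1 / 2 : ℝ)) :=
    mul_le_mul_of_nonneg_left h5 (Nat.cast_nonneg _)
  linarith

lemma ev_E4 {ε : ℝ} (hε : 0 < ε) (hK : 2 ≤ K) (hκ : 2 ≤ κ) (hη : 0 < η) (hδ : 0 < δ) :
    ∀ᶠ X : ℝ in atTop, RR K κ η δ X * Real.log (⌈X ^ 2⌉₊ : ℝ) ≤ ε * X := by
  obtain ⟨A, hA, hR⟩ := ev_RR hK hκ hη hδ
  have e1 := ev_log_le (a := η / 8) (b := 1 / 6) (by positivity) (by norm_num)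
  have e2 : ∀ᶠ X : ℝ in atTop, (2 : ℝ) ≤ X ^ (η / 8) :=
    (tendsto_rpow_atTop (by positivity)).eventually_ge_atTop 2
  have e3 := ev_lin (A := A) (B := 0) (c := ε) (a := 1 - η / 8) (by linarith) hε
  filter_upwards [hR, e1, e2, e3, eventually_ge_atTop (1 : ℝ)] with X h1 h2 h3 h4 hX1
  have hX0 : 0 < X := by linarith
  have h5 : (⌈X ^ 2⌉₊ : ℝ) ≤ 2 * X ^ 2 := by
    have := (Nat.ceil_lt_add_one (by positivity : (0 : ℝ) ≤ X ^ 2)).le
    nlinarith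
  have h6 : (1 : ℝ) ≤ (⌈X ^ 2⌉₊ : ℝ) := by
    have := Nat.le_ceil (X ^ 2)
    nlinarith
  have h7 : Real.log (⌈X ^ 2⌉₊ : ℝ) ≤ X ^ (η / 8) := by
    calc Real.log (⌈X ^ 2⌉₊ : ℝ) ≤ Real.log (2 * X ^ 2) := Real.log_le_log (by linarith) h5
      _ = Real.log 2 + 2 * Real.log X := by
          rw [Real.log_mul (by norm_num) (by positivity), Real.log_pow]; norm_num
      _ ≤ X ^ (η / 8) := by
          have := Real.log_two_lt_d9
          linarith
  have h8 : 0 ≤ Real.log (⌈X ^ 2⌉₊ : ℝ) := Real.log_nonneg h6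
  have h9 : X ^ (1 - η / 8) = X ^ (1 - η / 4) * X ^ (η / 8) := by
    rw [← Real.rpow_add hX0]; congr 1; ring
  calc RR K κ η δ X * Real.log (⌈X ^ 2⌉₊ : ℝ) ≤ (A * X ^ (1 - η / 4)) * X ^ (η / 8) := by
        apply mul_le_mul h1 h7 h8 (by positivity)
    _ = A * X ^ (1 - η / 8) + 0 := by rw [h9]; ring
    _ ≤ ε * X := h4

lemma ev_E5 {ε : ℝ} (hε : 0 < ε) (hε1 : ε < 1) (hK : 2 ≤ K) (P : ℝ) (hP : 0 ≤ P) :
    ∀ᶠ X : ℝ in atTop, Real.exp ((1 - ε) * X) ≤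
      Real.exp (X - ε / 2 * X) / K - 1 - P * ((⌊K * X⌋₊ : ℝ) + 1) := by
  have e1 : ∀ᶠ X : ℝ in atTop, 2 * K ≤ Real.exp (ε / 2 * X) :=
    (Real.tendsto_exp_atTop.comp (tendsto_id.const_mul_atTop (by positivity))).eventually_ge_atTop _
  set b := 1 - ε with hb
  have hb0 : 0 < b := by linarith
  have e2 : ∀ᶠ X : ℝ in atTop, 2 * P * K / b ^ 2 + 1 + 2 * (1 + P) / b ^ 2 ≤ X := eventually_ge_atTop _
  filter_upwards [e1, e2, eventually_ge_atTop (1 : ℝ)] with X h1 h2 hX1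
  have hX0 : 0 < X := by linarith
  have hK0 : 0 < K := by linarith
  have h3 : Real.exp (X - ε / 2 * X) = Real.exp (b * X) * Real.exp (ε / 2 * X) := by
    rw [← Real.exp_add]; congr 1; rw [hb]; ring
  have h4 : 2 * Real.exp (b * X) ≤ Real.exp (X - ε / 2 * X) / K := by
    rw [h3, le_div_iff₀ hK0]
    have := Real.exp_pos (b * X)
    nlinarith
  have h5 : (b * X) ^ 2 / 2 ≤ Real.exp (b * X) := by
    have := Real.quadratic_le_exp_of_nonneg (x := b * X) (by positivity)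
    nlinarith [mul_pos hb0 hX0]
  have h6 : 1 + P * ((⌊K * X⌋₊ : ℝ) + 1) ≤ (b * X) ^ 2 / 2 := by
    have h7 : (⌊K * X⌋₊ : ℝ) ≤ K * X := Nat.floor_le (by positivity)
    have h8 : P * (⌊K * X⌋₊ : ℝ) ≤ P * (K * X) := mul_le_mul_of_nonneg_left h7 hP
    have h9 : (2 * P * K / b ^ 2 + 2 * (1 + P) / b ^ 2) * b ^ 2 = 2 * P * K + 2 * (1 + P) := by
      field_simp
    have h10 : 2 * P * K + 2 * (1 + P) ≤ X * b ^ 2 := by
      rw [← h9]
      apply mul_le_mul_of_nonneg_right _ (by positivity)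
      linarith
    have h11 : (2 * P * K + 2 * (1 + P)) * X ≤ (X * b ^ 2) * X :=
      mul_le_mul_of_nonneg_right h10 hX0.le
    have h12 : 2 * (1 + P) ≤ 2 * (1 + P) * X := by nlinarith
    nlinarith
  linarith

end params

end Q239.MP
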