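import Mathlib
import Pool.Agent.Q239.MP.Asy

set_option autoImplicit false

/-!
# Main theorem
-/

namespace Q239.MP

open Filter Topology

lemma count {K x : ℝ} (hK : 2 ≤ K) (hx : 0 < x) {M : ℕ} (hM : 0 < M) (r : ℤ) (Bad : Finset ℤ)
    (P : ℤ → Prop) (hP : ∀ n : ℤ, (M : ℤ) ∣ n - r → n ∉ Bad → P n) :
    x / (K * M) - 1 - Bad.card ≤
      (Set.ncard {n : ℤ | x ≤ n ∧ (n : ℝ) ≤ (1 + K⁻¹) * x ∧ P n} : ℝ) := by
  classical
  have hK0 : 0 < K := by linarith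
  have hM0 : (0 : ℝ) < M := by exact_mod_cast hM
  set L := ⌊x / (K * M)⌋₊ with hL
  set n₀ : ℤ := r + M * ⌈(x - r) / M⌉ with hn₀
  have h1 : x ≤ n₀ := by
    have := Int.le_ceil ((x - r) / (M : ℝ))
    rw [div_le_iff₀ hM0] at this
    rw [hn₀]; push_cast
    linarith
  have h2 : (n₀ : ℝ) < x + M := by
    have := Int.ceil_lt_add_one ((x - r) / (M : ℝ))
    have h3 : (M : ℝ) * ⌈(x - r) / (M : ℝ)⌉ < M * ((x - r) / (M : ℝ) + 1) :=
      mul_lt_mul_of_pos_left this hM0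
    have h4 : (M : ℝ) * ((x - r) / (M : ℝ) + 1) = x - r + M := by field_simp
    rw [hn₀]; push_cast
    linarith
  have hLle : (L : ℝ) ≤ x / (K * M) := Nat.floor_le (by positivity)
  have hLge : x / (K * M) - 1 ≤ L := by
    have := Nat.lt_floor_add_one (x / (K * M))
    rw [← hL] at this
    linarith
  set G : Finset ℤ := (Finset.range L).image (fun i : ℕ => n₀ + M * i) with hG
  have hGcard : G.card = L := by
    rw [hG, Finset.card_image_of_injective, Finset.card_range]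
    intro i j hij
    have hM' : (M : ℤ) ≠ 0 := by exact_mod_cast hM.ne'
    have h3 : (M : ℤ) * i = M * j := by simpa using hij
    exact_mod_cast mul_left_cancel₀ hM' h3
  have hsub : ((G \ Bad : Finset ℤ) : Set ℤ) ⊆
      {n : ℤ | x ≤ n ∧ (n : ℝ) ≤ (1 + K⁻¹) * x ∧ P n} := by
    intro n hn
    rw [Finset.mem_coe, Finset.mem_sdiff, hG, Finset.mem_image] at hn
    obtain ⟨⟨i, hi, rfl⟩, hbad⟩ := hn
    rw [Finset.mem_range] at hi
    have hi' : (i : ℝ) + 1 ≤ L := by exact_mod_cast hi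
    refine ⟨?_, ?_, hP _ ?_ hbad⟩
    · push_cast
      have : (0 : ℝ) ≤ (M : ℝ) * i := by positivity
      linarith
    · push_cast
      have h5 : (M : ℝ) * ((i : ℝ) + 1) ≤ M * (x / (K * M)) :=
        mul_le_mul_of_nonneg_left (hi'.trans hLle) hM0.le
      have h6 : (M : ℝ) * (x / (K * M)) = K⁻¹ * x := by field_simp
      rw [h6] at h5
      linarith
    · refine ⟨⌈(x - r) / M⌉ + i, ?_⟩
      rw [hn₀]; ring
  have hfin : {n : ℤ | x ≤ n ∧ (n : ℝ) ≤ (1 + K⁻¹) * x ∧ P n}.Finite := by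
    apply (Set.finite_Icc (⌈x⌉) (⌊(1 + K⁻¹) * x⌋)).subset
    intro n hn
    exact ⟨Int.ceil_le.2 hn.1, Int.le_floor.2 hn.2.1⟩
  have h7 := Set.ncard_le_ncard hsub hfin
  rw [Set.ncard_coe_finset] at h7
  have h8 : G.card - Bad.card ≤ (G \ Bad).card := Finset.le_card_sdiff _ _
  have h9 : L ≤ (Set.ncard {n : ℤ | x ≤ n ∧ (n : ℝ) ≤ (1 + K⁻¹) * x ∧ P n}) + Bad.card := by
    omega
  have h10 : (L : ℝ) ≤ (Set.ncard {n : ℤ | x ≤ n ∧ (n : ℝ) ≤ (1 + K⁻¹) * x ∧ P n} : ℝ)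
      + Bad.card := by exact_mod_cast h9
  linarith

/-- The strong form of the conjecture. -/
theorem strong (K : ℝ) (hK : 2 ≤ K) : ∃ c : ℝ, 0 < c ∧ ∀ ε : ℝ, 0 < ε → ε < 1 →
    ∃ x₀ : ℝ, ∀ x : ℝ, x₀ ≤ x → x ^ (1 - ε) ≤
      (Set.ncard {n : ℤ | x ≤ n ∧ (n : ℝ) ≤ (1 + K⁻¹) * x ∧
        ∀ a j k : ℤ, ∀ h : ℕ, 2 ≤ a → (a : ℝ) ≤ K → 1 ≤ j → (j : ℝ) ≤ K → 1 ≤ k → (k : ℝ) ≤ K →
          (h : ℝ) ≤ K * Real.log x →
          c * Real.log (Real.log x) ≤ omega (n * j + a ^ h * k) ∧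
          c * Real.log (Real.log x) ≤ omega (n * j - a ^ h * k)} : ℝ) := by
  classical
  set κ := ⌊K⌋₊ with hκd
  have hκ : 2 ≤ κ := Nat.le_floor (by exact_mod_cast hK)
  have hκ0 : (0 : ℝ) < κ := by exact_mod_cast (by omega : 0 < κ)
  have hκ2 : (2 : ℝ) ≤ κ := by exact_mod_cast hκ
  have hlκ : 0 < Real.log κ := Real.log_pos (by linarith)
  have hl2 : 0 < Real.log 2 := Real.log_pos (by norm_num)
  set η := eta κ with hη
  have hη0 : 0 < η := by rw [hη]; unfold eta; positivity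
  set c := η / (8 * Real.log 2) with hc
  have hc0 : 0 < c := by positivity
  refine ⟨c, hc0, ?_⟩
  intro ε hε hε1
  set δ := ε / (24 * κ * Real.log κ) with hδ
  have hδ0 : 0 < δ := by positivity
  have e1 : ∀ᶠ X : ℝ in atTop, (κ : ℝ) ≤ Real.sqrt (δ * X) := by
    filter_upwards [eventually_ge_atTop ((κ : ℝ) ^ 2 / δ)] with X hX
    apply Real.le_sqrt_of_sq_le
    rw [div_le_iff₀ hδ0] at hX
    linarith
  have e2 := ev_E2 hK hκ hη0 hδ0
  have e4 := ev_E4 (ε := ε / 4) (by positivity) hK hκ hη0 hδ0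
  have e5 := ev_E5 hε hε1 hK (2 * (κ : ℝ) ^ 3) (by positivity)
  have ev := Real.tendsto_log_atTop.eventually
    ((((e1.and e2).and e4).and e5).and (eventually_ge_atTop (1 : ℝ)))
  obtain ⟨x₀, hx₀⟩ := eventually_atTop.1 (ev.and (eventually_gt_atTop (0 : ℝ)))
  refine ⟨x₀, fun x hx => ?_⟩
  obtain ⟨⟨⟨⟨⟨h1, h2⟩, h4⟩, h5⟩, hX1⟩, hxpos⟩ := hx₀ x hx
  set X := Real.log x with hX
  have hX0 : 0 < X := by linarith
  set N := ⌊Real.sqrt (δ * X)⌋₊ with hN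
  set H := ⌊K * X⌋₊ with hH
  set m := ⌈c * Real.log X⌉₊ with hm
  have hκN : κ ≤ N := Nat.le_floor h1
  have hY1 : 1 ≤ ⌈X ^ 2⌉₊ := Nat.one_le_ceil_iff.2 (by positivity)
  have hRR : RR K κ η δ X = (2 ^ m * (2 * (κ : ℝ) ^ 3 * ((H : ℝ) + 1)) *
      (((N : ℝ) + 1) / κ) ^ (-eta κ)) * m := by
    unfold RR
    rfl
  rw [hRR] at h2 h4
  obtain ⟨M, hMpos, hMlog, r, hr⟩ := core (κ := κ) (N := N) (H := H) (m := m) (Y := ⌈X ^ 2⌉₊)
    hκ hκN hY1 h2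
  have hM0 : (0 : ℝ) < M := by exact_mod_cast hMpos
  -- `M ≤ x ^ (ε / 2)`
  have hMle : Real.log M ≤ ε / 2 * X := by
    have h6 : (N : ℝ) ^ 2 ≤ δ * X := by
      have h7 : (N : ℝ) ≤ Real.sqrt (δ * X) := Nat.floor_le (Real.sqrt_nonneg _)
      calc (N : ℝ) ^ 2 ≤ (Real.sqrt (δ * X)) ^ 2 := pow_le_pow_left₀ (Nat.cast_nonneg _) h7 2
        _ = δ * X := Real.sq_sqrt (by positivity)
    have h7 : 6 * κ * (N : ℝ) ^ 2 * Real.log κ ≤ ε / 4 * X := by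
      calc 6 * κ * (N : ℝ) ^ 2 * Real.log κ = (6 * κ * Real.log κ) * (N : ℝ) ^ 2 := by ring
        _ ≤ (6 * κ * Real.log κ) * (δ * X) := mul_le_mul_of_nonneg_left h6 (by positivity)
        _ = ε / 4 * X := by rw [hδ]; field_simp; norm_num
    linarith
  -- the exceptional values
  set Bad : Finset ℤ := (Cs κ H).image
    (fun c => (-(c.1.2.2.2 * ((c.1.1 : ℤ) ^ c.2 * (c.1.2.2.1 : ℤ)))) / (c.1.2.1 : ℤ)) with hBad
  have hBadcard : (Bad.card : ℝ) ≤ 2 * (κ : ℝ) ^ 3 * ((H : ℝ) + 1) := by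
    have h6 : Bad.card ≤ 2 * κ ^ 3 * (H + 1) := by
      refine Finset.card_image_le.trans ?_
      rw [Cs, Finset.card_product, Finset.card_range]
      exact Nat.mul_le_mul_right _ (card_Tys κ)
    exact_mod_cast h6
  have hval : ∀ n : ℤ, n ∉ Bad → ∀ c ∈ Cs κ H, val c n ≠ 0 := by
    intro n hn c' hc' h0
    apply hn
    rw [hBad, Finset.mem_image]
    refine ⟨c', hc', ?_⟩
    have hj : (c'.1.2.1 : ℤ) ≠ 0 := by
      simp only [Cs, Tys, Finset.mem_product, Finset.mem_Icc] at hc'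
      have := hc'.1.2.1.1
      omega
    unfold val at h0
    have h6 : -(c'.1.2.2.2 * ((c'.1.1 : ℤ) ^ c'.2 * (c'.1.2.2.1 : ℤ))) = n * (c'.1.2.1 : ℤ) := by
      linarith
    rw [h6]
    exact Int.mul_ediv_cancel _ hj
  have hP : ∀ n : ℤ, (M : ℤ) ∣ n - r → n ∉ Bad →
      (∀ a j k : ℤ, ∀ h : ℕ, 2 ≤ a → (a : ℝ) ≤ K → 1 ≤ j → (j : ℝ) ≤ K → 1 ≤ k → (k : ℝ) ≤ K →
          (h : ℝ) ≤ K * Real.log x →
          c * Real.log (Real.log x) ≤ omega (n * j + a ^ h * k) ∧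
          c * Real.log (Real.log x) ≤ omega (n * j - a ^ h * k)) := by
    intro n hn hnB a j k h ha haK hj hjK hk hkK hh
    obtain ⟨a', rfl⟩ := Int.eq_ofNat_of_zero_le (by omega : 0 ≤ a)
    obtain ⟨j', rfl⟩ := Int.eq_ofNat_of_zero_le (by omega : 0 ≤ j)
    obtain ⟨k', rfl⟩ := Int.eq_ofNat_of_zero_le (by omega : 0 ≤ k)
    have ha' : a' ≤ κ := Nat.le_floor (by exact_mod_cast haK)
    have hj' : j' ≤ κ := Nat.le_floor (by exact_mod_cast hjK)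
    have hk' : k' ≤ κ := Nat.le_floor (by exact_mod_cast hkK)
    have hh' : h ≤ H := Nat.le_floor hh
    have hmem : ∀ s : ℤ, s = 1 ∨ s = -1 → (((a', j', k', s), h) : Ty × ℕ) ∈ Cs κ H := by
      intro s hs
      simp only [Cs, Tys, Finset.mem_product, Finset.mem_Icc, Finset.mem_range, Finset.mem_insert,
        Finset.mem_singleton]
      refine ⟨⟨⟨by omega, ha'⟩, ⟨by omega, hj'⟩, ⟨by omega, hk'⟩, hs⟩, by omega⟩
    have hmc : c * Real.log (Real.log x) ≤ m := Nat.le_ceil _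
    have key : ∀ s : ℤ, s = 1 ∨ s = -1 →
        c * Real.log (Real.log x) ≤ omega (n * (j' : ℤ) + s * ((a' : ℤ) ^ h * (k' : ℤ))) := by
      intro s hs
      have h6 := hr n hn _ (hmem s hs) (hval n hnB _ (hmem s hs))
      refine hmc.trans ?_
      exact_mod_cast h6
    constructor
    · have := key 1 (Or.inl rfl)
      rwa [one_mul] at this
    · have := key (-1) (Or.inr rfl)
      have h7 : n * (j' : ℤ) + -1 * ((a' : ℤ) ^ h * (k' : ℤ)) = n * j' - (a' : ℤ) ^ h * k' := by ring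
      rwa [h7] at this
  have hcount := count hK hxpos hMpos r Bad _ hP
  refine le_trans ?_ hcount
  have hK0 : 0 < K := by linarith
  have h6 : x ^ (1 - ε) = Real.exp ((1 - ε) * X) := by
    rw [Real.rpow_def_of_pos hxpos]; congr 1; rw [hX]; ring
  have h7 : Real.exp (X - ε / 2 * X) ≤ x / M := by
    rw [Real.exp_sub, hX, Real.exp_log hxpos]
    apply div_le_div_of_nonneg_left hxpos.le hM0
    rw [← Real.log_le_log_iff hM0 (Real.exp_pos _), Real.log_exp]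
    exact hMle
  have h8 : Real.exp (X - ε / 2 * X) / K ≤ x / (K * M) := by
    calc Real.exp (X - ε / 2 * X) / K ≤ (x / M) / K := div_le_div_of_nonneg_right h7 hK0.le
      _ = x / (K * M) := by rw [div_div, mul_comm]
  rw [h6]
  linarith

/-- The conjecture. -/
theorem conjecture (K : ℝ) (hK : 2 ≤ K) (ε : ℝ) (hε : 0 < ε) (hε1 : ε < 1) :
    ∃ x₀ : ℝ, ∀ x : ℝ, x₀ ≤ x → x ^ (1 - ε) ≤
      (Set.ncard {n : ℤ | x ≤ n ∧ (n : ℝ) ≤ (1 + K⁻¹) * x ∧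
        ∀ a j k : ℤ, ∀ h : ℕ, 2 ≤ a → (a : ℝ) ≤ K → 1 ≤ j → (j : ℝ) ≤ K → 1 ≤ k → (k : ℝ) ≤ K →
          (h : ℝ) ≤ K * Real.log x →
          (Real.log (Real.log x)) ^ (1 - ε) ≤ omega (n * j + a ^ h * k) ∧
          (Real.log (Real.log x)) ^ (1 - ε) ≤ omega (n * j - a ^ h * k)} : ℝ) := by
  obtain ⟨c, hc0, hc⟩ := strong K hK
  obtain ⟨x₁, hx₁⟩ := hc ε hε hε1
  have e1 : ∀ᶠ L : ℝ in atTop, L ^ (1 - ε) ≤ c * L := by
    have := ev_lin (A := 1) (B := 0) (c := c) (a := 1 - ε) (by linarith) hc0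
    filter_upwards [this] with L hL
    linarith
  have e2 := (Real.tendsto_log_atTop.comp Real.tendsto_log_atTop).eventually e1
  obtain ⟨x₂, hx₂⟩ := eventually_atTop.1 e2
  refine ⟨max x₁ x₂, fun x hx => ?_⟩
  refine (hx₁ x ((le_max_left _ _).trans hx)).trans ?_
  have h2 : (Real.log (Real.log x)) ^ (1 - ε) ≤ c * Real.log (Real.log x) :=
    hx₂ x ((le_max_right _ _).trans hx)
  norm_cast
  apply Set.ncard_le_ncard
  · rintro n ⟨hn1, hn2, hn3⟩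
    refine ⟨hn1, hn2, ?_⟩
    intro a j k h ha haK hj hjK hk hkK hh
    obtain ⟨h3, h4⟩ := hn3 a j k h ha haK hj hjK hk hkK hh
    exact ⟨h2.trans h3, h2.trans h4⟩
  · apply (Set.finite_Icc (⌈x⌉) (⌊(1 + K⁻¹) * x⌋)).subset
    intro n hn
    exact ⟨Int.ceil_le.2 hn.1, Int.le_floor.2 hn.2.1⟩

end Q239.MP
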